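import Pool.Agent.H75.CO.Defs
import Mathlib.Algebra.Group.Pointwise.Finset.Basic

/-!
# H54 CE, Cnt: the number of the lattice terms
-/

set_option autoImplicit false

namespace Pool.Agent.H54.CE

open Pool.Agent.H98.RH Pool.Agent.H75.CO
open scoped Pointwise

variable {G : Type} [Group G]

private theorem pow_fin {S : Set G} (hS : S.Finite) (m : ℕ) : (S ^ m).Finite ∧ (S ^ m).ncard ≤ (S.ncard + 1) ^ m := by
  induction m with
  | zero =>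
    rw [pow_zero, pow_zero]
    exact ⟨Set.finite_one, by rw [← Set.singleton_one, Set.ncard_singleton]⟩
  | succ m ih =>
    rw [pow_succ, pow_succ]
    refine ⟨ih.1.mul hS, ?_⟩
    have h1 : (S ^ m * S).ncard ≤ (S ^ m).ncard * S.ncard := by
      have h2 : S ^ m * S = (fun p : G × G => p.1 * p.2) '' ((S ^ m) ×ˢ S) := (Set.image_mul_prod).symm
      rw [h2]
      refine (Set.ncard_image_le (ih.1.prod hS)).trans ?_
      rw [Set.ncard_prod]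
    exact h1.trans (Nat.mul_le_mul ih.2 (Nat.le_succ _))

private theorem int_fin (C : ℕ) : {k : ℤ | |k| ≤ C}.Finite ∧ {k : ℤ | |k| ≤ C}.ncard ≤ 2 * C + 1 := by
  have h1 : {k : ℤ | |k| ≤ C} = (Finset.Icc (-(C : ℤ)) C : Set ℤ) := by
    ext k
    rw [Finset.coe_Icc, Set.mem_Icc, Set.mem_ofPred_eq, abs_le]
  rw [h1]
  refine ⟨Finset.finite_toSet _, ?_⟩
  rw [Set.ncard_coe_finset, Int.card_Icc]
  omega

theorem TL_card {S : Set G} (hS : S.Finite) (m C j : ℕ) :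
    (TL S m C j).Finite ∧ (TL S m C j).ncard ≤ (10 * (C + 1) * (S.ncard + 1) ^ m) ^ 3 ^ j := by
  obtain ⟨X, hX⟩ : ∃ X, X = 10 * (C + 1) * (S.ncard + 1) ^ m := ⟨_, rfl⟩
  rw [← hX]
  have hX1 : 10 * (C + 1) ≤ X := by
    rw [hX]
    exact Nat.le_mul_of_pos_right _ (pow_pos (Nat.succ_pos _) _)
  obtain ⟨hk1, hk2⟩ := int_fin C
  induction j with
  | zero =>
    obtain ⟨h1, h2⟩ := pow_fin hS m
    have h3 : TL S m C 0 = (fun p : G × ℤ => Pool.Agent.H98.RH.LT.sc p.2 (Pool.Agent.H98.RH.LT.sym p.1)) '' ((S ^ m) ×ˢ {k : ℤ | |k| ≤ C}) := by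
      ext t
      constructor
      · rintro ⟨s, hs, k, hk, rfl⟩
        exact ⟨(s, k), ⟨hs, hk⟩, rfl⟩
      · rintro ⟨⟨s, k⟩, ⟨hs, hk⟩, rfl⟩
        exact ⟨s, hs, k, hk, rfl⟩
    rw [h3]
    refine ⟨(h1.prod hk1).image _, ?_⟩
    refine (Set.ncard_image_le (h1.prod hk1)).trans ?_
    rw [Set.ncard_prod, pow_zero, pow_one, hX, mul_comm (10 * (C + 1))]
    exact Nat.mul_le_mul h2 (hk2.trans (by omega))
  | succ j ih =>
    obtain ⟨h1, h2⟩ := ih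
    obtain ⟨Y, hY⟩ : ∃ Y, Y = X ^ 3 ^ j := ⟨_, rfl⟩
    have hY1 : 10 * (C + 1) ≤ Y := by
      rw [hY]
      exact hX1.trans (Nat.le_self_pow (pow_ne_zero _ (by norm_num)) X)
    rw [← hY] at h2
    have h3 : TL S m C (j + 1) ⊆ TL S m C j ∪ ((fun p : Pool.Agent.H98.RH.LT G × ℤ => Pool.Agent.H98.RH.LT.sc p.2 p.1) '' ((TL S m C j) ×ˢ {k : ℤ | |k| ≤ C}) ∪
        ((fun p : Pool.Agent.H98.RH.LT G × Pool.Agent.H98.RH.LT G => Pool.Agent.H98.RH.LT.sum p.1 p.2) '' ((TL S m C j) ×ˢ (TL S m C j)) ∪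
          (fun p : Pool.Agent.H98.RH.LT G × Pool.Agent.H98.RH.LT G => Pool.Agent.H98.RH.LT.inf p.1 p.2) '' ((TL S m C j) ×ˢ (TL S m C j)))) := by
      rintro t (ht | ⟨t1, ht1, t2, ht2, k, hk, rfl | rfl | rfl⟩)
      · exact Or.inl ht
      · exact Or.inr (Or.inl ⟨(t1, k), ⟨ht1, hk⟩, rfl⟩)
      · exact Or.inr (Or.inr (Or.inl ⟨(t1, t2), ⟨ht1, ht2⟩, rfl⟩))
      · exact Or.inr (Or.inr (Or.inr ⟨(t1, t2), ⟨ht1, ht2⟩, rfl⟩))
    have hf1 := (h1.prod hk1).image (fun p : Pool.Agent.H98.RH.LT G × ℤ => Pool.Agent.H98.RH.LT.sc p.2 p.1)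
    have hf2 := (h1.prod h1).image (fun p : Pool.Agent.H98.RH.LT G × Pool.Agent.H98.RH.LT G => Pool.Agent.H98.RH.LT.sum p.1 p.2)
    have hf3 := (h1.prod h1).image (fun p : Pool.Agent.H98.RH.LT G × Pool.Agent.H98.RH.LT G => Pool.Agent.H98.RH.LT.inf p.1 p.2)
    have hfin := h1.union (hf1.union (hf2.union hf3))
    refine ⟨hfin.subset h3, (Set.ncard_le_ncard h3 hfin).trans ?_⟩
    have e1 : ((fun p : Pool.Agent.H98.RH.LT G × ℤ => Pool.Agent.H98.RH.LT.sc p.2 p.1) '' ((TL S m C j) ×ˢ {k : ℤ | |k| ≤ C})).ncard ≤ Y * (2 * C + 1) := by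
      refine (Set.ncard_image_le (h1.prod hk1)).trans ?_
      rw [Set.ncard_prod]
      exact Nat.mul_le_mul h2 hk2
    have e2 : ((fun p : Pool.Agent.H98.RH.LT G × Pool.Agent.H98.RH.LT G => Pool.Agent.H98.RH.LT.sum p.1 p.2) '' ((TL S m C j) ×ˢ (TL S m C j))).ncard ≤ Y * Y := by
      refine (Set.ncard_image_le (h1.prod h1)).trans ?_
      rw [Set.ncard_prod]
      exact Nat.mul_le_mul h2 h2
    have e3 : ((fun p : Pool.Agent.H98.RH.LT G × Pool.Agent.H98.RH.LT G => Pool.Agent.H98.RH.LT.inf p.1 p.2) '' ((TL S m C j) ×ˢ (TL S m C j))).ncard ≤ Y * Y := by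
      refine (Set.ncard_image_le (h1.prod h1)).trans ?_
      rw [Set.ncard_prod]
      exact Nat.mul_le_mul h2 h2
    have e4 := Set.ncard_union_le (TL S m C j) ((fun p : Pool.Agent.H98.RH.LT G × ℤ => Pool.Agent.H98.RH.LT.sc p.2 p.1) '' ((TL S m C j) ×ˢ {k : ℤ | |k| ≤ C}) ∪
        ((fun p : Pool.Agent.H98.RH.LT G × Pool.Agent.H98.RH.LT G => Pool.Agent.H98.RH.LT.sum p.1 p.2) '' ((TL S m C j) ×ˢ (TL S m C j)) ∪
          (fun p : Pool.Agent.H98.RH.LT G × Pool.Agent.H98.RH.LT G => Pool.Agent.H98.RH.LT.inf p.1 p.2) '' ((TL S m C j) ×ˢ (TL S m C j))))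
    have e5 := Set.ncard_union_le ((fun p : Pool.Agent.H98.RH.LT G × ℤ => Pool.Agent.H98.RH.LT.sc p.2 p.1) '' ((TL S m C j) ×ˢ {k : ℤ | |k| ≤ C}))
        ((fun p : Pool.Agent.H98.RH.LT G × Pool.Agent.H98.RH.LT G => Pool.Agent.H98.RH.LT.sum p.1 p.2) '' ((TL S m C j) ×ˢ (TL S m C j)) ∪
          (fun p : Pool.Agent.H98.RH.LT G × Pool.Agent.H98.RH.LT G => Pool.Agent.H98.RH.LT.inf p.1 p.2) '' ((TL S m C j) ×ˢ (TL S m C j)))
    have e6 := Set.ncard_union_le ((fun p : Pool.Agent.H98.RH.LT G × Pool.Agent.H98.RH.LT G => Pool.Agent.H98.RH.LT.sum p.1 p.2) '' ((TL S m C j) ×ˢ (TL S m C j)))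
        ((fun p : Pool.Agent.H98.RH.LT G × Pool.Agent.H98.RH.LT G => Pool.Agent.H98.RH.LT.inf p.1 p.2) '' ((TL S m C j) ×ˢ (TL S m C j)))
    have e7 : X ^ 3 ^ (j + 1) = Y * Y * Y := by
      rw [hY, pow_succ, pow_mul]
      ring
    rw [e7]
    have e8 : Y + (Y * (2 * C + 1) + (Y * Y + Y * Y)) ≤ Y * Y * Y := by
      have h10 : 2 * C + 2 ≤ Y := by omega
      have h11 : Y * (2 * C + 2) ≤ Y * Y := Nat.mul_le_mul le_rfl h10
      have h12 : 3 ≤ Y := by omega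
      have h13 : Y * Y * 3 ≤ Y * Y * Y := Nat.mul_le_mul le_rfl h12
      nlinarith
    omega

end Pool.Agent.H54.CE
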