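import Pool.Agent.H54.CE.Bet

/-!
# H54 CE, Equ: equivariance of towers and windows
-/

set_option autoImplicit false

namespace Pool.Agent.H54.CE

open Pool.Agent.H54.TT Pool.Agent.H98.RH Matrix Pool.Agent.H75.CO
open scoped Pointwise

variable {K : Type} [Field K] {v : K → ℤ} {hv : IsDV v} {π : Kˣ} {n : ℕ} {G : Type} [Group G]
  {ρ : G →* GL (Fin n) K} {S : Set G}

theorem sg_mv (g : GL (Fin n) K) (M : Lt hv n) (B : ℝ → Lt hv n) (k : Fin n) (t : ℝ) :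
    sg π (mv g M) (fun t => mv g (B t)) k t = mv g (sg π M B k t) := by
  unfold sg
  rw [bt_mv, mv_sup, mv_bl]

theorem kap_mv (h : G) (B : ℝ → Lt hv n) (W : Lt hv n) (k : Fin n) (g g' : G) :
    kap π ρ (fun t => mv (ρ h) (B t)) (mv (ρ h) W) k (h * g) (h * g') = kap π ρ B W k g g' := by
  unfold kap
  rw [← mv_La, ← mv_La, ← mv_inf]
  have h1 : sg π (mv (ρ h) (La hv ρ g)) (fun t => mv (ρ h) (B t)) k = fun t => mv (ρ h) (sg π (La hv ρ g) B k t) :=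
    funext fun t => sg_mv _ _ _ _ _
  rw [h1, kp_mv]

theorem hl_mv (h g : G) (m : ℕ) (W : Lt hv n) (κ κ' : G → ℝ) (hκ : ∀ x, κ' (h * x) = κ x) (t : ℝ) :
    hl π ρ S (h * g) m (mv (ρ h) W) κ' t = mv (ρ h) (hl π ρ S g m W κ t) := by
  unfold hl
  rw [mv_iSup]
  refine iSup_congr fun s => ?_
  rw [mv_iSup]
  refine iSup_congr fun _ => ?_
  rw [mv_inf, mv_bl, mv_La, mul_assoc, hκ]

theorem Fb_mv (ε : ℝ) (h g : G) (M : ℕ) (W W1 : Lt hv n) (κ κ' : G → ℝ) (hκ : ∀ x, κ' (h * x) = κ x) (t : ℝ) :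
    Fb π ρ S ε (h * g) M (mv (ρ h) W) (mv (ρ h) W1) κ' t = mv (ρ h) (Fb π ρ S ε g M W W1 κ t) := by
  unfold Fb
  rw [mv_sup, mv_iSup, hκ]
  congr 1
  refine iSup_congr fun m => ?_
  rw [mv_iSup]
  refine iSup_congr fun _ => ?_
  exact hl_mv h g m W κ κ' hκ _

variable {A L1 N : ℕ}

theorem Lv_mv {θ : ℝ} {d : Dat n N} {g : G} {B : ℝ → Lt hv n} {W W1 : Lt hv n} (hL : Lv π ρ S A L1 θ d g B W W1) (h : G) :
    Lv π ρ S A L1 θ d (h * g) (fun t => mv (ρ h) (B t)) (mv (ρ h) W) (mv (ρ h) W1) where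
  le := mv_mono _ hL.le
  y1 := by
    rw [kap_mv]
    exact hL.y1
  y2 k' hk := by
    rw [← mv_La, sg_mv, ← mv_inf, mv_le]
    exact hL.y2 k' hk
  t1 := by
    rw [kap_mv, hl_mv (κ := kap π ρ B W d.k g) (hκ := fun x => kap_mv h B W d.k g x), ← mv_La, ← mv_inf, mv_le]
    exact hL.t1
  t2 T hT := by
    rw [kap_mv, hl_mv (κ := kap π ρ B W d.k g) (hκ := fun x => kap_mv h B W d.k g x), ← mv_La, ← mv_inf, ← mv_bl, ← mv_sup,
      mv_le]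
    exact hL.t2 T hT

theorem Sp_mv (d : Dat n N) (h g : G) (B : ℝ → Lt hv n) (W W1 : Lt hv n) (t : ℝ) :
    Sp π ρ S A L1 d (h * g) (fun t => mv (ρ h) (B t)) (mv (ρ h) W) (mv (ρ h) W1) t =
      mv (ρ h) (Sp π ρ S A L1 d g B W W1 t) :=
  Fb_mv _ h g _ W W1 _ _ (fun x => kap_mv h B W d.k g x) t

theorem Tw_mv {θ : ℝ} {r : ℕ} {d : ℕ → Dat n N} {g : G} {B : ℝ → Lt hv n} {W : ℕ → Lt hv n}
    (hT : Tw π ρ S A L1 θ r d g B W) (h : G) :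
    Tw π ρ S A L1 θ r d (h * g) (fun t => mv (ρ h) (B t)) (fun l => mv (ρ h) (W l)) where
  top := by rw [hT.top, mv_top]
  bot := by rw [hT.bot, mv_bot]
  ne l hl h0 := hT.ne l hl (mv_inj (ρ h) (by rw [h0, mv_bot]))
  sub l hl := isSub_mv (hT.sub l hl) _
  lv l hl := Lv_mv (hT.lv l hl) h

theorem Wd_mv {r : ℕ} {d : ℕ → Dat n N} {g : G} {B : ℝ → Lt hv n} {W : ℕ → Lt hv n} {p : ℕ → ℤ → ℝ}
    {f : (Fin (r + 1) → ℤ) → Lt hv n} (hW : Wd π ρ S A L1 r d g B W p f) (h : G) :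
    Wd π ρ S A L1 r d (h * g) (fun t => mv (ρ h) (B t)) (fun l => mv (ρ h) (W l)) p (fun i => mv (ρ h) (f i)) where
  en l hl := by
    have h1 : Sp π ρ S A L1 (d l) (h * g) (fun t => mv (ρ h) (B t)) (mv (ρ h) (W l)) (mv (ρ h) (W (l + 1))) =
        fun t => mv (ρ h) (Sp π ρ S A L1 (d l) g B (W l) (W (l + 1)) t) := funext fun t => Sp_mv _ _ _ _ _ _ _
    rw [h1, le_mv (mv (ρ h)) (fun _ _ e => mv_inj (ρ h) e)]
    exact hW.en l hl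
  eq i := by
    rw [hW.eq, mv_iSup]
    refine iSup_congr fun l => ?_
    rw [mv_inf, mv_bl, mv_La, Sp_mv]

theorem Gap_mv {r : ℕ} {d : ℕ → Dat n N} {g : G} {B : ℝ → Lt hv n} {W : ℕ → Lt hv n}
    (hW : Gap π ρ S A L1 r d g B W) (h : G) :
    Gap π ρ S A L1 r d (h * g) (fun t => mv (ρ h) (B t)) (fun l => mv (ρ h) (W l)) := by
  intro l hl
  have h1 : Sp π ρ S A L1 (d l) (h * g) (fun t => mv (ρ h) (B t)) (mv (ρ h) (W l)) (mv (ρ h) (W (l + 1))) =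
      fun t => mv (ρ h) (Sp π ρ S A L1 (d l) g B (W l) (W (l + 1)) t) := funext fun t => Sp_mv _ _ _ _ _ _ _
  rw [h1, le_mv (mv (ρ h)) (fun _ _ e => mv_inj (ρ h) e), le_mv (mv (ρ h)) (fun _ _ e => mv_inj (ρ h) e)]
  exact hW l hl

/-- (C5) equivariance -/
theorem weak_equiv {r : ℕ} {d : ℕ → Dat n N} (h g : G) {B : ℝ → Lt hv n}
    {f : (Fin (r + 1) → ℤ) → Lt hv n} (hf : Wk π ρ S A L1 r d g B f) :
    Wk π ρ S A L1 r d (h * g) (fun t => mv (ρ h) (B t)) (fun i => mv (ρ h) (f i)) := by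
  obtain ⟨W, p, hT, hW⟩ := hf
  exact ⟨_, p, Tw_mv hT h, Wd_mv hW h⟩

/-- (C5) equivariance for strong windows -/
theorem strong_equiv {r : ℕ} {d : ℕ → Dat n N} (h g : G) {B : ℝ → Lt hv n}
    {f : (Fin (r + 1) → ℤ) → Lt hv n} (hf : St π ρ S A L1 r d g B f) :
    St π ρ S A L1 r d (h * g) (fun t => mv (ρ h) (B t)) (fun i => mv (ρ h) (f i)) := by
  obtain ⟨W, p, hT, hG, hW⟩ := hf
  exact ⟨_, p, Tw_mv hT h, Gap_mv hG h, Wd_mv hW h⟩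

end Pool.Agent.H54.CE
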