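import Pool.Agent.H54.CE.Mv
import Pool.Agent.H25.DI.Lat

/-!
# H54 CE, Bet: the exponents of an adapted basis are unique
-/

set_option autoImplicit false

namespace Pool.Agent.H54.CE

open Pool.Agent.H54.TT Pool.Agent.H98.RH Matrix Pool.Agent.H75.CO
open Pool.Agent.H10.RA (ge_sum ge_prod GeN ge_det)
open Pool.Agent.H25.DI (LM_le_iff inv_mulVec mulVec_inv)

variable {K : Type} [Field K] {v : K → ℤ} {n : ℕ}

/-- a permutation maps some index `≥ k` to some index `≤ k` -/
private theorem exists_perm (k : Fin n) (σ : Equiv.Perm (Fin n)) : ∃ b : Fin n, k ≤ b ∧ σ b ≤ k := by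
  by_contra hn
  push Not at hn
  have h1 : (Finset.Ici k).card ≤ (Finset.Ioi k).card := by
    refine Finset.card_le_card_of_injOn σ ?_ σ.injective.injOn
    intro b hb
    rw [Finset.mem_coe, Finset.mem_Ici] at hb
    rw [Finset.mem_coe, Finset.mem_Ioi]
    exact hn b hb
  rw [Fin.card_Ici, Fin.card_Ioi] at h1
  have := k.isLt
  omega

/-- a matrix with a large zero block modulo the uniformiser -/
private theorem det_block (hv : IsDV v) {M : Matrix (Fin n) (Fin n) K} (hM : GeN v 0 M) (k : Fin n)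
    (hk : ∀ i b, i ≤ k → k ≤ b → Ge v 1 (M i b)) : Ge v 1 M.det := by
  classical
  rw [Matrix.det_apply]
  refine ge_sum hv _ fun σ _ => ?_
  obtain ⟨b, hb, hσ⟩ := exists_perm k σ
  have h1 : Ge v 1 (∏ i, M (σ i) i) := by
    rw [← Finset.mul_prod_erase Finset.univ _ (Finset.mem_univ b)]
    have h2 := ge_prod hv (Finset.univ.erase b) (f := fun i => M (σ i) i) (k := 0) fun i _ => hM _ _
    rw [mul_zero] at h2
    have h3 := ge_mul hv (hk _ _ hσ hb) h2
    rwa [add_zero] at h3
  rcases Int.units_eq_one_or (Equiv.Perm.sign σ) with hs | hs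
  · rw [hs, one_smul]
    exact h1
  · rw [hs, Units.neg_smul, one_smul]
    exact ge_neg hv h1

private theorem beta_le {hv : IsDV v} {B : ℝ → Lt hv n} {M : Lt hv n} {e e' : GL (Fin n) K} {β β' : Fin n → ℝ}
    (h : Ad B M e β) (h' : Ad B M e' β') (k : Fin n) : β' k ≤ β k := by
  by_contra hlt
  push Not at hlt
  obtain ⟨P, hP⟩ : ∃ P : GL (Fin n) K, P = e⁻¹ * e' := ⟨_, rfl⟩
  have hP1 : GeN v 0 P.val := by
    rw [hP]
    exact (LM_le_iff hv).1 (by rw [h.lat, h'.lat])
  have hP2 : GeN v 0 (P⁻¹).val := by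
    have : P⁻¹ = e'⁻¹ * e := by
      rw [hP]
      group
    rw [this]
    exact (LM_le_iff hv).1 (by rw [h.lat, h'.lat])
  have hblock : ∀ i b, i ≤ k → k ≤ b → Ge v 1 (P.val i b) := by
    intro i b hi hb hne
    have h1 : e'.val *ᵥ Pi.single b 1 ∈ B (-β' k) := by
      rw [h'.mem]
      intro a
      rw [inv_mulVec, Pi.single_apply]
      intro hne'
      split_ifs at hne' ⊢ with hab
      · subst hab
        rw [hv.one]
        have := h'.mono hb
        push_cast
        linarith
      · exact absurd rfl hne'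
    rw [h.mem] at h1
    have h2 := h1 i
    have h3 : ((e⁻¹ : GL (Fin n) K).val *ᵥ (e'.val *ᵥ Pi.single b 1)) i = P.val i b := by
      rw [Matrix.mulVec_mulVec, hP, Units.val_mul, Matrix.mulVec_single_one]
      rfl
    rw [h3] at h2
    have h4 := h2 hne
    have h5 := h.mono hi
    have h6 : (0 : ℝ) < (v (P.val i b) : ℝ) := by linarith
    have h7 : 0 < v (P.val i b) := by exact_mod_cast h6
    omega
  have h1 := det_block hv hP1 k hblock
  have h2 : Ge v 0 (P⁻¹).val.det := by
    have := ge_det hv hP2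
    rwa [mul_zero] at this
  have h3 := ge_mul hv h1 h2
  have h4 : P.val.det * (P⁻¹).val.det = 1 := by
    rw [← Matrix.det_mul, ← Units.val_mul, mul_inv_cancel, Units.val_one, Matrix.det_one]
  rw [h4] at h3
  have h5 := h3 one_ne_zero
  rw [hv.one] at h5
  omega

/-- the exponents do not depend on the adapted basis -/
theorem beta_eq {hv : IsDV v} {B : ℝ → Lt hv n} {M : Lt hv n} {e e' : GL (Fin n) K} {β β' : Fin n → ℝ}
    (h : Ad B M e β) (h' : Ad B M e' β') : β = β' :=
  funext fun k => le_antisymm (beta_le h' h k) (beta_le h h' k)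

theorem bt_eq {hv : IsDV v} {B : ℝ → Lt hv n} {M : Lt hv n} {e : GL (Fin n) K} {β : Fin n → ℝ} (h : Ad B M e β) :
    bt B M = β := by
  have hex : ∃ e β, Ad B M e β := ⟨e, β, h⟩
  funext k
  unfold bt
  rw [dif_pos hex]
  have h1 : Ad B M hex.choose hex.choose_spec.choose := hex.choose_spec.choose_spec
  rw [beta_eq h1 h]

theorem bt_mv {hv : IsDV v} {B : ℝ → Lt hv n} (M : Lt hv n) (g : GL (Fin n) K) :
    bt (fun t => mv g (B t)) (mv g M) = bt B M := by
  by_cases hex : ∃ e β, Ad B M e β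
  · obtain ⟨e, β, h⟩ := hex
    rw [bt_eq h, bt_eq (Ad.mv h g)]
  · have hex' : ¬ ∃ e β, Ad (fun t => mv g (B t)) (mv g M) e β := by
      rintro ⟨e, β, h⟩
      apply hex
      have h1 := Ad.mv h g⁻¹
      rw [mv_inv_mv] at h1
      have h2 : (fun t => mv g⁻¹ (mv g (B t))) = B := funext fun t => mv_inv_mv g (B t)
      rw [h2] at h1
      exact ⟨_, _, h1⟩
    funext k
    unfold bt
    rw [dif_neg hex, dif_neg hex']

end Pool.Agent.H54.CE
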