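import Pool.Agent.H75.CO.Defs

/-!
# H54 CE, Mv: images of modules under invertible matrices
-/

set_option autoImplicit false

namespace Pool.Agent.H54.CE

open Pool.Agent.H54.TT Pool.Agent.H98.RH Matrix Pool.Agent.H75.CO
open scoped Pointwise

variable {K : Type} [Field K] {v : K → ℤ} {hv : IsDV v} {n : ℕ}

theorem mem_mv {g : GL (Fin n) K} {M : Lt hv n} {x : Fin n → K} :
    x ∈ mv g M ↔ ((g⁻¹ : GL (Fin n) K).val *ᵥ x) ∈ M := by
  have h1 : ∀ y : Fin n → K, g.val *ᵥ ((g⁻¹ : GL (Fin n) K).val *ᵥ y) = y := by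
    intro y
    rw [Matrix.mulVec_mulVec, ← Units.val_mul, mul_inv_cancel, Units.val_one, Matrix.one_mulVec]
  have h2 : ∀ y : Fin n → K, (g⁻¹ : GL (Fin n) K).val *ᵥ (g.val *ᵥ y) = y := by
    intro y
    rw [Matrix.mulVec_mulVec, ← Units.val_mul, inv_mul_cancel, Units.val_one, Matrix.one_mulVec]
  constructor
  · rintro ⟨y, hy, rfl⟩
    show (g⁻¹ : GL (Fin n) K).val *ᵥ (g.val *ᵥ y) ∈ M
    rw [h2]
    exact hy
  · intro hx
    exact ⟨_, hx, h1 x⟩

theorem mv_one (M : Lt hv n) : mv 1 M = M := by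
  ext x
  rw [mem_mv, inv_one, Units.val_one, Matrix.one_mulVec]

theorem mv_mul (g h : GL (Fin n) K) (M : Lt hv n) : mv (g * h) M = mv g (mv h M) := by
  ext x
  rw [mem_mv, mem_mv, mem_mv, _root_.mul_inv_rev, Units.val_mul, Matrix.mulVec_mulVec]

theorem mv_inv_mv (g : GL (Fin n) K) (M : Lt hv n) : mv g⁻¹ (mv g M) = M := by
  rw [← mv_mul, inv_mul_cancel, mv_one]

theorem mv_mv_inv (g : GL (Fin n) K) (M : Lt hv n) : mv g (mv g⁻¹ M) = M := by
  rw [← mv_mul, mul_inv_cancel, mv_one]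

theorem mv_mono (g : GL (Fin n) K) {M M' : Lt hv n} (h : M ≤ M') : mv g M ≤ mv g M' := by
  intro x hx
  rw [mem_mv] at hx ⊢
  exact h hx

theorem mv_le (g : GL (Fin n) K) {M M' : Lt hv n} : mv g M ≤ mv g M' ↔ M ≤ M' := by
  refine ⟨fun h => ?_, mv_mono g⟩
  have := mv_mono g⁻¹ h
  rwa [mv_inv_mv, mv_inv_mv] at this

theorem mv_inj (g : GL (Fin n) K) {M M' : Lt hv n} (h : mv g M = mv g M') : M = M' := by
  have := congrArg (mv g⁻¹) h
  rwa [mv_inv_mv, mv_inv_mv] at this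

theorem mv_inf (g : GL (Fin n) K) (M M' : Lt hv n) : mv g (M ⊓ M') = mv g M ⊓ mv g M' := by
  ext x
  rw [mem_mv, Submodule.mem_inf, Submodule.mem_inf, mem_mv, mem_mv]

theorem mv_sup (g : GL (Fin n) K) (M M' : Lt hv n) : mv g (M ⊔ M') = mv g M ⊔ mv g M' := by
  unfold mv
  rw [Submodule.map_sup]

theorem mv_iSup {ι : Sort*} (g : GL (Fin n) K) (M : ι → Lt hv n) : mv g (⨆ i, M i) = ⨆ i, mv g (M i) := by
  unfold mv
  rw [Submodule.map_iSup]

theorem mv_bot (g : GL (Fin n) K) : mv g (⊥ : Lt hv n) = ⊥ := by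
  unfold mv
  rw [Submodule.map_bot]

theorem mv_top (g : GL (Fin n) K) : mv g (⊤ : Lt hv n) = ⊤ := by
  rw [eq_top_iff]
  intro x _
  rw [mem_mv]
  exact Submodule.mem_top

theorem mem_sh {π : Kˣ} {k : ℤ} {M : Lt hv n} {x : Fin n → K} : x ∈ sh π k M ↔ ((π ^ (-k) : Kˣ) : K) • x ∈ M := by
  constructor
  · rintro ⟨y, hy, rfl⟩
    show ((π ^ (-k) : Kˣ) : K) • (((π ^ k : Kˣ) : K) • y) ∈ M
    rw [smul_smul, ← Units.val_mul, ← _root_.zpow_add, neg_add_cancel, zpow_zero, Units.val_one, one_smul]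
    exact hy
  · intro hx
    refine ⟨_, hx, ?_⟩
    show ((π ^ k : Kˣ) : K) • (((π ^ (-k) : Kˣ) : K) • x) = x
    rw [smul_smul, ← Units.val_mul, ← _root_.zpow_add, add_neg_cancel, zpow_zero, Units.val_one, one_smul]

theorem mv_sh (g : GL (Fin n) K) (π : Kˣ) (k : ℤ) (M : Lt hv n) : mv g (sh π k M) = sh π k (mv g M) := by
  ext x
  rw [mem_mv, mem_sh, mem_sh, mem_mv, Matrix.mulVec_smul]

theorem mv_bl (g : GL (Fin n) K) (π : Kˣ) (M : Lt hv n) (t : ℝ) : mv g (bl π M t) = bl π (mv g M) t := mv_sh g π _ M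

theorem mv_LM (g h : GL (Fin n) K) : mv g (LM hv h) = LM hv (g * h) := by
  have e : ∀ k : GL (Fin n) K, LM hv k = mv k (L0 hv n) := fun _ => rfl
  rw [e, e, mv_mul]

theorem mv_La {G : Type} [Group G] (ρ : G →* GL (Fin n) K) (h g : G) : mv (ρ h) (La hv ρ g) = La hv ρ (h * g) := by
  unfold La
  rw [mv_LM, map_mul]

theorem isSub_mv {W : Lt hv n} (h : IsSub W) (g : GL (Fin n) K) : IsSub (mv g W) := by
  intro c x hx
  rw [mem_mv] at hx ⊢
  rw [Matrix.mulVec_smul]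
  exact h c _ hx

theorem kp_mv (g : GL (Fin n) K) (P : ℝ → Lt hv n) (M : Lt hv n) : kp (fun t => mv g (P t)) (mv g M) = kp P M := by
  unfold kp
  congr 1
  ext t
  exact mv_le g

theorem Ad.mv {B : ℝ → Lt hv n} {M : Lt hv n} {e : GL (Fin n) K} {β : Fin n → ℝ} (h : Ad B M e β) (g : GL (Fin n) K) :
    Ad (fun t => mv g (B t)) (mv g M) (g * e) β where
  lat := by rw [← h.lat, mv_LM]
  mono := h.mono
  mem t x := by
    rw [mem_mv, h.mem, _root_.mul_inv_rev, Units.val_mul, ← Matrix.mulVec_mulVec]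

theorem Hn.mv' {B : ℝ → Lt hv n} (hB : Hn B) (g : GL (Fin n) K) : Hn (fun t => Pool.Agent.H75.CO.mv g (B t)) := by
  intro h
  obtain ⟨e, β, he⟩ := hB (g⁻¹ * h)
  refine ⟨g * e, β, ?_⟩
  have := Ad.mv he g
  rwa [mv_LM, mul_inv_cancel_left] at this

theorem le_mv {P : Type} (g : P → P) (hg : Function.Injective g) (Φ : ℝ → P) (c : ℝ) :
    Le (fun t => g (Φ t)) c = Le Φ c := by
  ext t
  constructor
  · rintro ⟨h1, h2⟩
    exact ⟨hg h1, fun s hs h => h2 s hs (congrArg g h)⟩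
  · rintro ⟨h1, h2⟩
    exact ⟨congrArg g h1, fun s hs h => h2 s hs (hg h)⟩

end Pool.Agent.H54.CE
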